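import Pool.Agent.H703R3.MBBody

/-!
# Billiards inside the body of revolution `‖x‖² + x_k⁴ ≤ 1` preserve an angular momentum
-/

set_option autoImplicit false

open Set Filter Topology
open scoped RealInnerProductSpace ContDiff

namespace Pool.Agent.R187.BR

open Pool.Agent.H703R3.MB

variable {n : ℕ}

/-- the function -/
noncomputable def fi (k : Fin n) (x : Euc n) : ℝ := ‖x‖ ^ 2 + (x k) ^ 4

/-- its gradient -/
noncomputable def gi (k : Fin n) (x : Euc n) : Euc n :=
  (2 : ℝ) • x + EuclideanSpace.single k (4 * (x k) ^ 3)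

theorem gi_inner (k : Fin n) (x w : Euc n) :
    ⟪gi k x, w⟫ = 2 * ⟪x, w⟫ + 4 * (x k) ^ 3 * w k := by
  unfold gi
  rw [inner_add_left, real_inner_smul_left, EuclideanSpace.inner_single_left]
  simp

theorem goodi (k : Fin n) : Good (fi k) (gi k) where
  cd := by
    unfold fi
    have h1 : ContDiff ℝ ∞ fun x : Euc n => ‖x‖ ^ 2 := contDiff_norm_sq ℝ
    have h2 : ContDiff ℝ ∞ fun x : Euc n => (x k) ^ 4 := by fun_prop
    exact h1.add h2
  line := by
    intro x w
    refine ⟨‖w‖ ^ 2 + 6 * (x k) ^ 2 * (w k) ^ 2, 4 * x k * (w k) ^ 3, (w k) ^ 4, ?_, ?_, ?_⟩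
    · have : 0 ≤ 6 * (x k) ^ 2 * (w k) ^ 2 := by positivity
      linarith
    · have : 0 ≤ (w k) ^ 2 * (2 * (x k) ^ 2 + (2 * x k + w k) ^ 2) := by positivity
      nlinarith
    · intro s
      unfold fi
      rw [gi_inner]
      have h1 : ‖x + s • w‖ ^ 2 = ‖x‖ ^ 2 + 2 * s * ⟪x, w⟫ + s ^ 2 * ‖w‖ ^ 2 := by
        rw [norm_add_sq_real, real_inner_smul_right, norm_smul, mul_pow, Real.norm_eq_abs, sq_abs]
        ring
      rw [h1]
      simp only [PiLp.add_apply, PiLp.smul_apply, smul_eq_mul]
      ring
  lower := by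
    intro x
    unfold fi
    have : 0 ≤ (x k) ^ 4 := by positivity
    linarith
  zero := by simp [fi]
  pos := by
    intro x hx
    rw [gi_inner, real_inner_self_eq_norm_sq]
    have h0 : 0 < ‖x‖ := by
      refine norm_pos_iff.2 ?_
      rintro rfl
      simp [fi] at hx
    have : 0 ≤ 4 * (x k) ^ 3 * x k := by
      have : 4 * (x k) ^ 3 * x k = 4 * (x k) ^ 4 := by ring
      rw [this]; positivity
    positivity

theorem not_elli {j k : Fin n} (hjk : j ≠ k) : ¬ IsEllipsoid (Body (fi k)) := by
  refine (goodi k).not_isEllipsoid (p := EuclideanSpace.single j (1 : ℝ))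
    (q := EuclideanSpace.single k (1 : ℝ)) ?_ ?_ ?_
  · intro x
    unfold fi
    rw [norm_neg]
    simp
    ring
  · simp
  · intro a b
    unfold fi
    rw [norm_add_sq_real, norm_smul, norm_smul, real_inner_smul_left,
      real_inner_smul_right, EuclideanSpace.inner_single_left]
    simp [hjk, hjk.symm]

/-! ### reflections -/

/-- the reflected direction at `x` -/
noncomputable def refl (k : Fin n) (x v : Euc n) : Euc n :=
  v - (2 * ⟪v, outerNormal (Body (fi k)) x⟫) • outerNormal (Body (fi k)) x

theorem refl_eq (k : Fin n) {x v : Euc n} (hx : fi k x = 1) :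
    refl k x v = v - (2 * ⟪v, gi k x⟫ / ‖gi k x‖ ^ 2) • gi k x := by
  unfold refl
  rw [(goodi k).outerNormal_eq hx, real_inner_smul_right, smul_smul]
  congr 2
  have h0 : 0 < ‖gi k x‖ := norm_pos_iff.2 ((goodi k).g_ne_zero hx)
  field_simp

theorem refl_inner (k : Fin n) {x v : Euc n} (hx : fi k x = 1) :
    ⟪gi k x, refl k x v⟫ = -⟪gi k x, v⟫ := by
  have h0 : 0 < ‖gi k x‖ := norm_pos_iff.2 ((goodi k).g_ne_zero hx)
  rw [refl_eq k hx, inner_sub_right, real_inner_smul_right, real_inner_self_eq_norm_sq,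
    real_inner_comm v]
  field_simp
  ring

theorem refl_norm (k : Fin n) {x v : Euc n} (hx : fi k x = 1) : ‖refl k x v‖ = ‖v‖ := by
  have h0 : 0 < ‖gi k x‖ := norm_pos_iff.2 ((goodi k).g_ne_zero hx)
  have h : ‖refl k x v‖ ^ 2 = ‖v‖ ^ 2 := by
    rw [refl_eq k hx, norm_sub_sq_real, real_inner_smul_right, norm_smul, mul_pow,
      Real.norm_eq_abs, sq_abs]
    field_simp
    ring
  exact (pow_left_inj₀ (norm_nonneg _) (norm_nonneg _) (by norm_num)).1 h

theorem refl_refl (k : Fin n) {x v : Euc n} (hx : fi k x = 1) : refl k x (refl k x v) = v := by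
  rw [refl_eq k (v := refl k x v) hx, real_inner_comm (gi k x), refl_inner k hx, refl_eq k hx,
    real_inner_comm v, mul_neg, neg_div, neg_smul, sub_neg_eq_add, sub_add_cancel]

/-! ### the angular momentum -/

/-- the angular momentum of an oriented line in the coordinates `i`, `j` -/
noncomputable def am (i j : Fin n) (l : Euc n × Euc n) : ℝ := l.1 i * l.2 j - l.1 j * l.2 i

theorem am_through (i j : Fin n) (x v : Euc n) :
    am i j (lineThrough x v) = x i * v j - x j * v i := by
  unfold am lineThrough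
  simp only [PiLp.sub_apply, PiLp.smul_apply, smul_eq_mul]
  ring

theorem am_refl {i j k : Fin n} (hik : i ≠ k) (hjk : j ≠ k) {x v : Euc n} (hx : fi k x = 1) :
    am i j (lineThrough x (refl k x v)) = am i j (lineThrough x v) := by
  rw [am_through, am_through, refl_eq k hx]
  have h1 : gi k x i = 2 * x i := by unfold gi; simp [hik]
  have h2 : gi k x j = 2 * x j := by unfold gi; simp [hjk]
  simp only [PiLp.sub_apply, PiLp.smul_apply, smul_eq_mul, h1, h2]
  ring

/-! ### lines -/

theorem lineThrough_orth {x v : Euc n} (hv : ‖v‖ = 1) : ⟪(lineThrough x v).1, v⟫ = 0 := by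
  unfold lineThrough
  rw [inner_sub_left, real_inner_smul_left, real_inner_self_eq_norm_sq, hv]
  ring

theorem mem_lines_of {k : Fin n} {x v : Euc n} (hv : ‖v‖ = 1) {s : ℝ} (hs : fi k (x + s • v) < 1) :
    lineThrough x v ∈ lines (Body (fi k)) := by
  refine ⟨hv, lineThrough_orth hv, ⟪x, v⟫ + s, ?_⟩
  rw [(goodi k).interior_body]
  show fi k _ < 1
  have : (lineThrough x v).1 + (⟪x, v⟫ + s) • (lineThrough x v).2 = x + s • v := by
    unfold lineThrough
    simp only
    module
  rw [this]
  exact hs

/-- the exit point of the line through a boundary point with outward direction -/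
theorem exit_through {k : Fin n} {x v : Euc n} (hx : fi k x = 1) (hg : 0 < ⟪gi k x, v⟫) :
    exitPoint (Body (fi k)) (lineThrough x v) = x := by
  have hset : IsGreatest {t : ℝ | (lineThrough x v).1 + t • (lineThrough x v).2 ∈ Body (fi k)}
      ⟪x, v⟫ := by
    constructor
    · show fi k _ ≤ 1
      have : (lineThrough x v).1 + ⟪x, v⟫ • (lineThrough x v).2 = x := by
        unfold lineThrough; simp
      rw [this, hx]
    · intro t ht
      have ht' : fi k ((lineThrough x v).1 + t • (lineThrough x v).2) ≤ 1 := ht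
      by_contra hcon
      push Not at hcon
      have e : (lineThrough x v).1 + t • (lineThrough x v).2 = x + (t - ⟪x, v⟫) • v := by
        unfold lineThrough
        rw [sub_smul]
        simp only
        abel
      rw [e] at ht'
      have h1 := (goodi k).ge x (x + (t - ⟪x, v⟫) • v)
      rw [add_sub_cancel_left, real_inner_smul_right, hx] at h1
      have h2 : 0 < (t - ⟪x, v⟫) * ⟪gi k x, v⟫ := mul_pos (by linarith) hg
      have h3 : 0 ≤ ‖(t - ⟪x, v⟫) • v‖ ^ 2 := by positivity
      linarith
  unfold exitPoint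
  rw [hset.csSup_eq]
  unfold lineThrough
  simp

/-- each line leaves the body at some boundary point in an outward direction -/
theorem exists_exit {k : Fin n} {p v : Euc n} (hv : ‖v‖ = 1) (hpv : ⟪p, v⟫ = 0)
    (hint : ∃ t : ℝ, p + t • v ∈ interior (Body (fi k))) :
    ∃ x : Euc n, fi k x = 1 ∧ 0 < ⟪gi k x, v⟫ ∧ (p, v) = lineThrough x v := by
  obtain ⟨t0, ht0⟩ := hint
  rw [(goodi k).interior_body] at ht0
  have ht0' : fi k (p + t0 • v) < 1 := ht0
  set A : Set ℝ := {t : ℝ | p + t • v ∈ Body (fi k)} with hA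
  have hc : Continuous fun t : ℝ => p + t • v := by fun_prop
  have hAc : IsClosed A := (goodi k).isClosed_body.preimage hc
  have hbd : ∀ t ∈ A, |t| ≤ 1 := by
    intro t ht
    have h1 := (goodi k).norm_le_of_mem ht
    have h2 : ⟪p + t • v, v⟫ = t := by
      rw [inner_add_left, real_inner_smul_left, real_inner_self_eq_norm_sq, hv, hpv]; ring
    rw [← h2]
    refine (abs_real_inner_le_norm _ _).trans ?_
    rw [hv, mul_one]
    exact h1
  have hcomp : IsCompact A := by
    refine Metric.isCompact_of_isClosed_isBounded hAc ?_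
    refine (Metric.isBounded_closedBall (x := (0:ℝ)) (r := 1)).subset fun t ht => ?_
    rw [mem_closedBall_zero_iff, Real.norm_eq_abs]
    exact hbd t ht
  have hne : A.Nonempty := ⟨t0, ht0'.le⟩
  obtain ⟨T, hT, hmax⟩ := hcomp.exists_isGreatest hne
  have hTle : fi k (p + T • v) ≤ 1 := hT
  have hT1 : fi k (p + T • v) = 1 := by
    by_contra hne1
    have hlt : fi k (p + T • v) < 1 := lt_of_le_of_ne hTle hne1
    have hcf : Continuous fun t : ℝ => fi k (p + t • v) := (goodi k).continuous.comp hc
    have hev : ∀ᶠ t : ℝ in 𝓝 T, fi k (p + t • v) < 1 :=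
      (hcf.tendsto T).eventually (gt_mem_nhds hlt)
    obtain ⟨δ, hδ, hs⟩ := Metric.eventually_nhds_iff.1 hev
    have h4 := hs (y := T + δ / 2) (by
      rw [Real.dist_eq, add_sub_cancel_left, abs_of_pos (by linarith)]; linarith)
    have h5 : T + δ / 2 ∈ A := h4.le
    have := hmax h5
    linarith
  refine ⟨p + T • v, hT1, ?_, ?_⟩
  · have h1 := (goodi k).ge (p + T • v) (p + t0 • v)
    have e : p + t0 • v - (p + T • v) = (t0 - T) • v := by rw [sub_smul]; abel
    rw [e, real_inner_smul_right, hT1] at h1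
    have h2 : 0 ≤ ‖(t0 - T) • v‖ ^ 2 := by positivity
    have h3 : (t0 - T) * ⟪gi k (p + T • v), v⟫ < 0 := by linarith
    have h4 : t0 ≤ T := hmax ht0'.le
    by_contra hcon
    push Not at hcon
    have : 0 ≤ (t0 - T) * ⟪gi k (p + T • v), v⟫ :=
      mul_nonneg_of_nonpos_of_nonpos (by linarith) hcon
    linarith
  · unfold lineThrough
    have h2 : ⟪p + T • v, v⟫ = T := by
      rw [inner_add_left, real_inner_smul_left, real_inner_self_eq_norm_sq, hv, hpv]; ring
    rw [h2, add_sub_cancel_right]

/-! ### the invariant hypersurface -/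

/-- the lines with angular momentum `1 / 2` -/
def Si (i j k : Fin n) : Set (Euc n × Euc n) := lines (Body (fi k)) ∩ {l | am i j l = 1 / 2}

theorem continuous_am (i j : Fin n) : Continuous (am (n := n) i j) := by
  unfold am
  fun_prop

theorem contDiff_am (i j : Fin n) : ContDiff ℝ ∞ (am (n := n) i j) := by
  unfold am
  fun_prop

theorem isInvariant {i j k : Fin n} (hij : i ≠ j) (hik : i ≠ k) (hjk : j ≠ k) :
    IsInvariantHypersurface (Body (fi k)) (Si i j k) where
  nonempty := by
    refine ⟨(EuclideanSpace.single i (1 / 2 : ℝ), EuclideanSpace.single j (1 : ℝ)), ⟨?_, ?_, 0, ?_⟩, ?_⟩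
    · simp
    · rw [EuclideanSpace.inner_single_left]
      simp [hij]
    · rw [(goodi k).interior_body]
      show fi k _ < 1
      unfold fi
      simp [hik.symm]
      norm_num
    · show am i j _ = 1 / 2
      unfold am
      simp [hij, hij.symm]
  subset := fun l hl => hl.1
  closed := ⟨_, isClosed_eq (continuous_am i j) continuous_const, rfl⟩
  smooth := by
    rintro ⟨p, v⟩ ⟨⟨hv, hpv, -⟩, hJ⟩
    have hJ' : p i * v j - p j * v i = 1 / 2 := hJ
    refine ⟨fun l => am i j l - 1 / 2, (contDiff_am i j).sub contDiff_const, ?_, ?_⟩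
    · refine Eventually.of_forall fun l hl => ?_
      constructor
      · intro h
        have h2 : am i j l = 1 / 2 := h.2
        show am i j l - 1 / 2 = 0
        rw [h2, sub_self]
      · intro h
        have h2 : am i j l - 1 / 2 = 0 := h
        exact ⟨hl, by show am i j l = 1 / 2; linarith⟩
    · -- the tangent vector
      set w : Euc n := EuclideanSpace.single i (v j) - EuclideanSpace.single j (v i) with hw
      set ξ : Euc n × Euc n := (w - ⟪w, v⟫ • v, 0) with hξ
      refine ⟨ξ, ⟨?_, ?_⟩, ?_⟩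
      · show ⟪v, (0 : Euc n)⟫ = 0
        rw [inner_zero_right]
      · show ⟪w - ⟪w, v⟫ • v, v⟫ + ⟪p, (0 : Euc n)⟫ = 0
        rw [inner_zero_right, inner_sub_left, real_inner_smul_left, real_inner_self_eq_norm_sq]
        have : ‖v‖ = 1 := hv
        rw [this]
        ring
      · have hd : HasFDerivAt (fun l : Euc n × Euc n => am i j l - 1 / 2)
            (fderiv ℝ (fun l : Euc n × Euc n => am i j l - 1 / 2) (p, v)) (p, v) :=
          (((contDiff_am i j).sub contDiff_const).differentiable
            (by simp)).differentiableAt.hasFDerivAt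
        have hl : HasDerivAt (fun s : ℝ => (p, v) + s • ξ) ξ 0 := by
          simpa using ((hasDerivAt_id (0 : ℝ)).smul_const ξ).const_add (p, v)
        have hc : HasDerivAt (fun s : ℝ => am i j ((p, v) + s • ξ) - 1 / 2)
            (fderiv ℝ (fun l : Euc n × Euc n => am i j l - 1 / 2) (p, v) ξ) 0 :=
          HasFDerivAt.comp_hasDerivAt (x := (0 : ℝ)) (f := fun s : ℝ => (p, v) + s • ξ)
            (l := fun l : Euc n × Euc n => am i j l - 1 / 2)
            (l' := fderiv ℝ (fun l : Euc n × Euc n => am i j l - 1 / 2) (p, v))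
            (by simpa using hd) hl
        have e : (fun s : ℝ => am i j ((p, v) + s • ξ) - 1 / 2) =
            fun s => (p i * v j - p j * v i - 1 / 2) + s * (v j ^ 2 + v i ^ 2) + s ^ 2 * 0 +
              s ^ 3 * 0 + s ^ 4 * 0 := by
          ext s
          unfold am
          simp only [hξ, hw, Prod.fst_add, Prod.snd_add, Prod.smul_fst, Prod.smul_snd, smul_zero,
            add_zero, PiLp.add_apply, PiLp.smul_apply, PiLp.sub_apply, smul_eq_mul,
            EuclideanSpace.single_apply, if_true, hij, hij.symm, if_false]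
          ring
        rw [e] at hc
        have h8 := hc.unique (poly_deriv _ (v j ^ 2 + v i ^ 2) 0 0 0 0)
        rw [h8]
        have h9 : v j ^ 2 + v i ^ 2 ≠ 0 := by
          intro h0
          have a1 : v j = 0 := by nlinarith [sq_nonneg (v j), sq_nonneg (v i)]
          have a2 : v i = 0 := by nlinarith [sq_nonneg (v j), sq_nonneg (v i)]
          rw [a1, a2] at hJ'
          norm_num at hJ'
        simpa using h9
  invariant := by
    apply Subset.antisymm
    · rintro _ ⟨⟨p, v⟩, ⟨⟨hv, hpv, hint⟩, hJ⟩, rfl⟩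
      obtain ⟨x, hx, hg, hl⟩ := exists_exit (k := k) hv hpv hint
      have hb : billiardMap (Body (fi k)) (p, v) = lineThrough x (refl k x v) := by
        rw [hl]
        unfold billiardMap
        rw [exit_through hx hg]
        rfl
      rw [hb]
      have hneg : ⟪gi k x, refl k x v⟫ < 0 := by rw [refl_inner k hx]; linarith
      obtain ⟨s, -, hs⟩ := (goodi k).exists_lt hneg
      rw [hx] at hs
      refine ⟨mem_lines_of (by rw [refl_norm k hx]; exact hv) hs, ?_⟩
      show am i j _ = 1 / 2
      rw [am_refl hik hjk hx, ← hl]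
      exact hJ
    · rintro ⟨p, v⟩ ⟨⟨hv, hpv, hint⟩, hJ⟩
      have hv' : ‖v‖ = 1 := hv
      obtain ⟨t0, ht0⟩ := hint
      obtain ⟨x, hx, hg, hl⟩ := exists_exit (k := k) (p := p) (v := -v) (by rwa [norm_neg])
        (by rw [inner_neg_right]; exact neg_eq_zero.2 hpv) ⟨-t0, by simpa using ht0⟩
      rw [inner_neg_right] at hg
      have hl2 : (p, v) = lineThrough x v := by
        have h1 : p = (lineThrough x (-v)).1 := congrArg Prod.fst hl
        refine Prod.ext ?_ rfl
        show p = (lineThrough x v).1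
        rw [h1]
        unfold lineThrough
        simp
      refine ⟨lineThrough x (refl k x v), ⟨?_, ?_⟩, ?_⟩
      · have hneg : ⟪gi k x, -(refl k x v)⟫ < 0 := by
          rw [inner_neg_right, refl_inner k hx]; linarith
        obtain ⟨s, -, hs⟩ := (goodi k).exists_lt hneg
        rw [hx] at hs
        refine mem_lines_of (s := -s) (by rw [refl_norm k hx]; exact hv') ?_
        rwa [neg_smul, ← smul_neg]
      · show am i j _ = 1 / 2
        rw [am_refl hik hjk hx, ← hl2]
        exact hJ
      · unfold billiardMap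
        rw [exit_through hx (by rw [refl_inner k hx]; linarith)]
        show lineThrough x (refl k x (refl k x v)) = (p, v)
        rw [refl_refl k hx, hl2]

/-- Q1 -/
theorem q1 (n : ℕ) (hn : 3 ≤ n) : ∃ Ω : Set (Euc n), IsTable Ω ∧ ¬ IsEllipsoid Ω ∧
    ∃ S : Set (Euc n × Euc n), IsInvariantHypersurface Ω S := by
  have h01 : (⟨0, by omega⟩ : Fin n) ≠ ⟨1, by omega⟩ := by simp
  have h02 : (⟨0, by omega⟩ : Fin n) ≠ ⟨2, by omega⟩ := by simp
  have h12 : (⟨1, by omega⟩ : Fin n) ≠ ⟨2, by omega⟩ := by simp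
  exact ⟨Body (fi ⟨2, by omega⟩), (goodi _).isTable, not_elli h02, Si ⟨0, by omega⟩ ⟨1, by omega⟩
    ⟨2, by omega⟩, isInvariant h01 h02 h12⟩

end Pool.Agent.R187.BR
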